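import Mathlib
import Pool.Agent.H33.ScatVal

set_option autoImplicit false

namespace Pool.Agent.Results.MP_3028b5_gt.ScatteredNo

/-- No scattered Valdivia compact space contains a copy of `[0, ω₂]`. -/
theorem result :
    ∀ (K : Type) [TopologicalSpace K] [CompactSpace K] [T2Space K],
      (∀ A : Set K, A.Nonempty → ∃ x ∈ A, ∃ U : Set K, IsOpen U ∧ U ∩ A = {x}) →
      (∃ (Γ : Type) (h : K → (Γ → ℝ)), Topology.IsEmbedding h ∧
        Dense {x : K | {γ : Γ | h x γ ≠ 0}.Countable}) →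
      ¬ ∃ f : Set.Iic (Cardinal.aleph.{0} 2).ord → K, Topology.IsEmbedding f := by
  rintro K _ _ _ hs ⟨Γ, e, he, hD⟩ ⟨f, hf⟩
  exact Pool.Agent.H33.ScatVal.main he hD hs f hf

end Pool.Agent.Results.MP_3028b5_gt.ScatteredNo
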